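import Mathlib

namespace Pool.Agent.Results.MP_c843e9_co.AlphaBound

open SimpleGraph Finset

/-- Number of vertices at even distance from `v` (including `v`). -/
noncomputable def dEven {V : Type} (G : SimpleGraph V) (v : V) : ℕ :=
  {u | Even (G.dist u v)}.ncard

/-- Independence number of the subgraph induced on the open neighbourhood of `v`. -/
noncomputable def locInd {V : Type} (G : SimpleGraph V) (v : V) : ℕ :=
  (G.induce (G.neighborSet v)).indepNum

variable {V : Type} [Fintype V] {G : SimpleGraph V}

theorem card_le_loc (u : V) (T : Finset V) (h1 : ∀ x ∈ T, G.Adj u x)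
    (h2 : G.IsIndepSet (T : Set V)) : T.card ≤ locInd G u := by
  classical
  have hI : (G.induce (G.neighborSet u)).IsIndepSet
      (T.subtype (· ∈ G.neighborSet u) : Finset (G.neighborSet u)) := by
    intro a ha b hb hab
    exact h2 (mem_subtype.1 ha) (mem_subtype.1 hb) (Subtype.coe_ne_coe.2 hab)
  have := hI.card_le_indepNum
  rwa [card_subtype, filter_true_of_mem (p := (· ∈ G.neighborSet u)) h1] at this

omit [Fintype V] in
theorem parent (hc : G.Connected) (v s : V) (h : s ≠ v) :
    ∃ p, G.Adj p s ∧ G.dist p v + 1 = G.dist s v := by
  obtain ⟨w, hw⟩ := hc.exists_walk_length_eq_dist s v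
  cases w with
  | nil => exact absurd rfl h
  | @cons _ p _ ha w =>
    refine ⟨p, ha.symm, ?_⟩
    have h1 := dist_le w
    have h2 := hc.dist_triangle (u := s) (v := p) (w := v)
    rw [dist_eq_one_iff_adj.2 ha] at h2
    simp only [Walk.length_cons] at hw
    omega

theorem main (hc : G.Connected) (L : ℕ) (hL : ∀ u, locInd G u ≤ L + 2) (v : V) :
    G.indepNum ≤ 1 + dEven G v * (L + 1) := by
  classical
  obtain ⟨S, hS⟩ := G.exists_isNIndepSet_indepNum
  rw [← hS.card_eq]
  have hp : ∀ s, ∃ p, s ≠ v → G.Adj p s ∧ G.dist p v + 1 = G.dist s v := fun s => by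
    by_cases h : s = v
    · exact ⟨v, fun h' => absurd h h'⟩
    · obtain ⟨p, hp⟩ := parent hc v s h
      exact ⟨p, fun _ => hp⟩
  choose par hpar using hp
  have hne : ∀ s, ¬ Even (G.dist s v) → s ≠ v := by
    rintro s h rfl
    simp at h
  let f : V → V := fun s => if Even (G.dist s v) then s else par s
  let E : Finset V := univ.filter fun u => Even (G.dist u v)
  have hf : ∀ s ∈ S, f s ∈ E := by
    intro s _
    simp only [E, f, mem_filter, mem_univ, true_and]
    split_ifs with h
    · exact h
    · rw [← (hpar s (hne s h)).2, Nat.even_add_one, not_not] at h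
      exact h
  have hfib : ∀ u ∈ E, (S.filter fun s => f s = u).card ≤ L + 1 + if u = v then 1 else 0 := by
    intro u _
    have hcase : ∀ s ∈ S.filter fun s => f s = u, s = u ∨
        (G.Adj u s ∧ G.dist u v + 1 = G.dist s v) := by
      intro s hs
      have := (mem_filter.1 hs).2
      simp only [f] at this
      split_ifs at this with h
      · exact Or.inl this
      · exact Or.inr (this ▸ hpar s (hne s h))
    have hI : G.IsIndepSet ((S.filter fun s => f s = u : Finset V) : Set V) :=
      hS.isIndepSet.mono (by intro x hx; exact (mem_filter.1 hx).1)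
    by_cases hu : u ∈ S.filter fun s => f s = u
    · have : (S.filter fun s => f s = u).card ≤ 1 := by
        have : Nonempty V := ⟨u⟩
        rw [card_le_one_iff_subset_singleton]
        refine ⟨u, fun s hs => mem_singleton.2 ?_⟩
        rcases hcase s hs with h | h
        · exact h
        · exact absurd h.1 (hI hu hs h.1.ne)
      omega
    have hc2 : ∀ s ∈ S.filter fun s => f s = u, G.Adj u s ∧ G.dist u v + 1 = G.dist s v :=
      fun s hs => (hcase s hs).resolve_left fun e => hu (e ▸ hs)
    split_ifs with huv
    · exact (card_le_loc u _ (fun s hs => (hc2 s hs).1) hI).trans (hL u)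
    · obtain ⟨h1, h2⟩ := hpar u huv
      have hnot : par u ∉ S.filter fun s => f s = u := fun h => by
        have := (hc2 _ h).2
        omega
      have hna : ∀ s ∈ S.filter fun s => f s = u, ¬ G.Adj s (par u) := fun s hs ha => by
        have h3 := (hc2 _ hs).2
        have h4 := hc.dist_triangle (u := s) (v := par u) (w := v)
        rw [dist_eq_one_iff_adj.2 ha] at h4
        omega
      have := card_le_loc u (insert (par u) (S.filter fun s => f s = u)) (by
        intro x hx
        rcases mem_insert.1 hx with rfl | hx
        · exact h1.symm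
        · exact (hc2 x hx).1) (by
        intro a ha b hb hab
        rcases mem_insert.1 ha with rfl | ha <;> rcases mem_insert.1 hb with rfl | hb
        · exact absurd rfl hab
        · exact fun h => hna b hb h.symm
        · exact hna a ha
        · exact hI ha hb hab)
      rw [card_insert_of_notMem hnot] at this
      have := hL u
      omega
  rw [card_eq_sum_card_fiberwise hf]
  refine (sum_le_sum hfib).trans ?_
  have hE : dEven G v = E.card := by
    rw [dEven, ← Set.ncard_coe_finset]
    congr 1
    ext x
    simp [E]
  rw [sum_add_distrib, sum_const, sum_ite_eq', hE, smul_eq_mul]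
  split_ifs <;> omega

theorem small (hc : G.Connected) (hL : ∀ u, locInd G u ≤ 1) : G.indepNum ≤ 1 := by
  classical
  obtain ⟨S, hS⟩ := G.exists_isNIndepSet_indepNum
  rw [← hS.card_eq, card_le_one]
  intro a ha b hb
  have key : ∀ w, G.Reachable a w → w = a ∨ G.Adj a w := by
    intro w hw
    induction (G.reachable_iff_reflTransGen a w).1 hw with
    | refl => exact Or.inl rfl
    | @tail z w h1 hs ih =>
      rcases ih ((G.reachable_iff_reflTransGen a z).2 h1) with rfl | h
      · exact Or.inr hs
      · by_contra hno
        push Not at hno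
        have := card_le_loc (G := G) z {w, a} (by
          intro x hx
          rcases mem_insert.1 hx with rfl | hx
          · exact hs
          · rw [mem_singleton.1 hx]; exact h.symm) (by
          intro x hx y hy hxy
          simp only [coe_insert, coe_singleton, Set.mem_insert_iff, Set.mem_singleton_iff] at hx hy
          rcases hx with rfl | rfl <;> rcases hy with rfl | rfl
          · exact absurd rfl hxy
          · exact fun h => hno.2 h.symm
          · exact hno.2
          · exact absurd rfl hxy)
        rw [card_pair hno.1] at this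
        have := hL z
        omega
  rcases key b (hc a b) with h | h
  · exact h.symm
  · exact absurd h (hS.isIndepSet ha hb h.ne)

theorem result : ∀ (V : Type) [Fintype V] (G : SimpleGraph V), 2 ≤ Fintype.card V →
    G.Connected →
    (G.indepNum : ℤ) ≤ 1 + ((⨅ v, dEven G v : ℕ) : ℤ) * (((⨆ v, locInd G v : ℕ) : ℤ) - 1) := by
  intro V _ G h2 hc
  have : Nontrivial V := Fintype.one_lt_card_iff_nontrivial.1 h2
  have hle : ∀ u, locInd G u ≤ ⨆ v, locInd G v := fun u =>
    le_ciSup (f := locInd G) (Set.finite_range _).bddAbove u
  obtain ⟨v, hv⟩ : (⨅ v, dEven G v) ∈ Set.range (dEven G) := Nat.sInf_mem (Set.range_nonempty _)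
  obtain ⟨w, hw⟩ := exists_ne v
  obtain ⟨p, hp, -⟩ := parent hc v w hw
  have h1 := (card_le_loc p {w} (by simpa using hp) (by simp [IsIndepSet])).trans (hle p)
  rw [← hv]
  generalize (⨆ v, locInd G v) = L at *
  rcases L with _ | _ | L
  · simp at h1
  · have := small hc hle
    push_cast
    omega
  · have := main hc L hle v
    have h3 : (G.indepNum : ℤ) ≤ 1 + dEven G v * (L + 1) := by exact_mod_cast this
    push_cast
    linarith

end Pool.Agent.Results.MP_c843e9_co.AlphaBound
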